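import Mathlib

/-!
# MP_d0186b_co: maximum order complexity of the Zeckendorf digit parity along the squares

For `P = X ^ 2` the `N`-th maximum order complexity of `(s_Z(P(n)) mod 2)` is at least
`N ^ (1/3) / 32` for infinitely many `N`; so it is not `O(N ^ (1/4))`, and the order of magnitude
`N ^ (1/(2d))` proposed for all monic `P` of degree `d ≥ 2` is wrong.

For even `l` the square of a Lucas number is `L_l ^ 2 = F_{2l+1} + F_{2l-1} + 2`, and the Zeckendorf
representation of `2 t L_l` is, for `t` up to a small power of `L_l`, a shift of that of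
`2 t L_{l'}` for a much smaller `l'`. Hence `s_Z((L_l + t) ^ 2) = 2 + x(t) + s_Z(t ^ 2 + 2)` with
`x(t)` independent of `l`, for `0 ≤ t ≤ T` with `T` of order `L_l ^ (1/3)`. If the maximum order
complexity were at most `T + 1`, then the sequence would have period `L_{l+1}` from `L_l` on, but
`L_{l+3}` (an odd index, where `L ^ 2 = F + F - 2`) and `L_{l+2}` behave differently at `t = 2`.
-/

set_option autoImplicit false

namespace Pool.Agent.Results.MP_d0186b_co.CubeRoot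

/-- The sum of digits of the Zeckendorf expansion of `n`: the number of Fibonacci numbers used. -/
def sZ (n : ℕ) : ℕ := (Nat.zeckendorf n).length

/-- The sequence `s_Z(P(n)) mod 2`. -/
def seq (P : Polynomial ℤ) (n : ℕ) : ZMod 2 := (sZ (P.eval (n : ℤ)).toNat : ℕ)

/-- The feedback shift register of length `M` with some feedback function generates
`s 0, …, s (N - 1)`. -/
def Generates (s : ℕ → ZMod 2) (N M : ℕ) : Prop :=
  ∃ f : (Fin M → ZMod 2) → ZMod 2, ∀ i, i + M + 1 ≤ N → s (i + M) = f fun j => s (i + j)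

open Classical in
/-- The `N`-th maximum order complexity, with the conventions of the problem. -/
noncomputable def moc (s : ℕ → ZMod 2) (N : ℕ) : ℕ :=
  if ∀ i, i + 2 ≤ N → s i = s 0 then (if s (N - 1) = s 0 then 0 else N - 1)
  else sInf {M | 1 ≤ M ∧ Generates s N M}

/-! ### Zeckendorf representations -/

instance : IsTrans ℕ fun a b => b + 2 ≤ a where
  trans _ _ _ h1 h2 := by omega

theorem rep_iff (l : List ℕ) : l.IsZeckendorfRep ↔
    l.Pairwise (fun a b => b + 2 ≤ a) ∧ ∀ a ∈ l, 2 ≤ a := by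
  rw [List.IsZeckendorfRep, List.isChain_iff_pairwise, List.pairwise_append]
  simp

theorem two_le {n e : ℕ} (he : e ∈ n.zeckendorf) : 2 ≤ e :=
  ((rep_iff _).1 (Nat.isZeckendorfRep_zeckendorf n)).2 e he

theorem fib_le_of_mem {n e : ℕ} (he : e ∈ n.zeckendorf) : Nat.fib e ≤ n := by
  conv_rhs => rw [← Nat.sum_zeckendorf_fib n]
  exact List.single_le_sum (by simp) _ (List.mem_map_of_mem he)

theorem lt_of_mem {n e q : ℕ} (he : e ∈ n.zeckendorf) (h : n < Nat.fib q) : e < q := by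
  by_contra hcon
  have h1 := fib_le_of_mem he
  have h2 : Nat.fib q ≤ Nat.fib e := Nat.fib_mono (by omega)
  omega

/-- `1 / φ`. -/
noncomputable def ρ : ℝ := -Real.goldenConj

theorem ρ_sq : ρ ^ 2 = 1 - ρ := by
  have := Real.goldenConj_sq
  unfold ρ
  linear_combination this

theorem ρ_pos : 0 < ρ := by
  have := Real.goldenConj_neg
  unfold ρ
  linarith

theorem ρ_lb : 0.6 < ρ := by
  have h1 := ρ_sq
  have h2 := ρ_pos
  nlinarith

theorem ρ_lt : ρ < 1 := by
  have h1 := ρ_sq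
  have h2 := ρ_pos
  nlinarith

theorem ρ_ub : ρ < 0.62 := by
  have h1 := ρ_sq
  have h2 := ρ_pos
  nlinarith

theorem conj_abs : |Real.goldenConj| = ρ := by
  rw [abs_of_neg Real.goldenConj_neg]
  rfl

theorem δ_bound (l : List ℕ) : l.IsZeckendorfRep → ∀ a, 2 ≤ a → (∀ b ∈ l, b + 2 ≤ a) →
    |(l.map fun e => Real.goldenConj ^ e).sum| ≤ ρ - ρ ^ (a - 1) := by
  induction l with
  | nil =>
    intro _ a ha _
    simp only [List.map_nil, List.sum_nil, abs_zero, sub_nonneg]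
    exact pow_le_of_le_one ρ_pos.le ρ_lt.le (by omega)
  | cons b l ih =>
    intro hl a ha hb
    rw [rep_iff, List.pairwise_cons] at hl
    obtain ⟨⟨h1, h2⟩, h3⟩ := hl
    have hb2 : 2 ≤ b := h3 b (by simp)
    have hba := hb b (by simp)
    have h4 := ih ((rep_iff l).2 ⟨h2, fun c hc => h3 c (by simp [hc])⟩) b hb2 h1
    simp only [List.map_cons, List.sum_cons]
    have h5 : |Real.goldenConj ^ b| = ρ ^ b := by rw [abs_pow, conj_abs]
    have h6 := abs_add_le (Real.goldenConj ^ b) ((l.map fun e => Real.goldenConj ^ e).sum)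
    have h7 : ρ ^ (b - 1) = ρ ^ b + ρ ^ (b + 1) := by
      obtain ⟨c, rfl⟩ : ∃ c, b = c + 1 := ⟨b - 1, by omega⟩
      have := ρ_sq
      simp only [Nat.add_sub_cancel]
      linear_combination (-ρ ^ c) * this
    have h8 : ρ ^ (a - 1) ≤ ρ ^ (b + 1) := pow_le_pow_of_le_one ρ_pos.le ρ_lt.le (by omega)
    linarith

theorem sum_shift (l : List ℕ) : (((l.map fun e => Nat.fib (e + 1)).sum : ℕ) : ℝ) -
    Real.goldenRatio * ((l.map Nat.fib).sum : ℕ) = (l.map fun e => Real.goldenConj ^ e).sum := by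
  induction l with
  | nil => simp
  | cons a l ih =>
    have := Real.fib_succ_sub_goldenRatio_mul_fib a
    simp only [List.map_cons, List.sum_cons, Nat.cast_add]
    rw [← ih, ← this]
    ring

theorem shift_eq {n n' : ℕ} (h : |(n' : ℝ) - Real.goldenRatio * n| < 1 - ρ) :
    n'.zeckendorf = n.zeckendorf.map (· + 1) := by
  have hrep := Nat.isZeckendorfRep_zeckendorf n
  have h1 := sum_shift n.zeckendorf
  rw [Nat.sum_zeckendorf_fib] at h1
  have h2 : |(n.zeckendorf.map fun e => Real.goldenConj ^ e).sum| ≤ ρ := by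
    have h3 := δ_bound _ hrep (n + 4) (by omega) fun b hb => by
      have := fib_le_of_mem hb
      have := Nat.le_fib_add_one b
      omega
    have : 0 < ρ ^ (n + 4 - 1) := pow_pos ρ_pos _
    linarith
  rw [← h1] at h2
  obtain ⟨S, hS⟩ : ∃ S, S = (n.zeckendorf.map fun e => Nat.fib (e + 1)).sum := ⟨_, rfl⟩
  rw [← hS] at h2
  have h4 : S = n' := by
    rw [abs_lt] at h
    rw [abs_le] at h2
    have h5 : (S : ℝ) < n' + 1 := by linarith [h.1, h.2, h2.1, h2.2]
    have h6 : (n' : ℝ) < S + 1 := by linarith [h.1, h.2, h2.1, h2.2]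
    have h7 : S < n' + 1 := by exact_mod_cast h5
    have h8 : n' < S + 1 := by exact_mod_cast h6
    omega
  have h5 : ((n.zeckendorf.map (· + 1)).map Nat.fib).sum = n' := by
    rw [List.map_map, ← h4, hS]
    rfl
  rw [← h5]
  apply Nat.zeckendorf_sum_fib
  rw [rep_iff] at hrep ⊢
  refine ⟨List.Pairwise.map _ (fun a b hab => by omega) hrep.1, fun a ha => ?_⟩
  rw [List.mem_map] at ha
  obtain ⟨b, hb, rfl⟩ := ha
  have := hrep.2 b hb
  omega

/-- `lu n = L_{n+1}`, a Lucas number. -/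
def lu (n : ℕ) : ℕ := Nat.fib n + Nat.fib (n + 2)

theorem lu_add (n : ℕ) : lu (n + 2) = lu n + lu (n + 1) := by
  have h1 : Nat.fib (n + 2 + 2) = Nat.fib (n + 2) + Nat.fib (n + 2 + 1) := Nat.fib_add_two
  have h2 : Nat.fib (n + 2) = Nat.fib n + Nat.fib (n + 1) := Nat.fib_add_two
  unfold lu
  rw [show n + 1 + 2 = n + 2 + 1 by ring]
  omega

/-- `2 t L_{n+1}`. -/
def X (n t : ℕ) : ℕ := 2 * t * lu n

theorem fib_le_pow (n : ℕ) : (Nat.fib (n + 1) : ℝ) * ρ ^ n ≤ 1 := by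
  have h1 : (Nat.fib (n + 1) : ℝ) ≤ Real.goldenRatio ^ n := by
    cases n with
    | zero => simp
    | succ n =>
      have h1 := Real.goldenRatio_mul_fib_succ_add_fib n
      have h2 := Real.one_lt_goldenRatio
      have h3 : (0 : ℝ) ≤ Nat.fib (n + 1) := Nat.cast_nonneg _
      rw [Nat.fib_add_two, ← h1]
      push_cast
      nlinarith
  have h2 : Real.goldenRatio * ρ = 1 := by
    have := Real.goldenRatio_mul_goldenConj
    unfold ρ
    linarith
  calc (Nat.fib (n + 1) : ℝ) * ρ ^ n ≤ Real.goldenRatio ^ n * ρ ^ n := by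
        have := pow_pos ρ_pos n
        gcongr
    _ = 1 := by rw [← mul_pow, h2, one_pow]

theorem X_step {n t : ℕ} (h : 8 * t ≤ Nat.fib (n + 1)) :
    (X (n + 1) t).zeckendorf = (X n t).zeckendorf.map (· + 1) := by
  apply shift_eq
  have h1 := Real.fib_succ_sub_goldenRatio_mul_fib n
  have h2 := Real.fib_succ_sub_goldenRatio_mul_fib (n + 2)
  have e : ((X (n + 1) t : ℕ) : ℝ) - Real.goldenRatio * (X n t : ℕ) =
      2 * t * (Real.goldenConj ^ n + Real.goldenConj ^ (n + 2)) := by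
    rw [← h1, ← h2]
    unfold X lu
    push_cast
    rw [show n + 1 + 2 = n + 2 + 1 by ring]
    ring
  have h3 := fib_le_pow n
  have h4 := pow_pos ρ_pos n
  have h5 : (8 : ℝ) * t ≤ Nat.fib (n + 1) := by exact_mod_cast h
  have h6 : (8 : ℝ) * t * ρ ^ n ≤ 1 := by nlinarith
  have h7 : |Real.goldenConj ^ n + Real.goldenConj ^ (n + 2)| ≤ ρ ^ n * (2 - ρ) := by
    refine (abs_add_le _ _).trans ?_
    rw [abs_pow, abs_pow, conj_abs, pow_add, ρ_sq]
    apply le_of_eq
    ring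
  rw [e, abs_mul, abs_of_nonneg (by positivity : (0 : ℝ) ≤ 2 * t)]
  have hρ1 := ρ_lb
  have hρ2 := ρ_ub
  calc 2 * (t : ℝ) * |Real.goldenConj ^ n + Real.goldenConj ^ (n + 2)|
      ≤ 2 * t * (ρ ^ n * (2 - ρ)) := by gcongr
    _ = (8 * t * ρ ^ n) * ((2 - ρ) / 4) := by ring
    _ ≤ 1 * ((2 - ρ) / 4) := by gcongr; linarith
    _ < 1 - ρ := by linarith

theorem X_shift {n₀ t : ℕ} (h : 8 * t ≤ Nat.fib (n₀ + 1)) (k : ℕ) :
    (X (n₀ + k) t).zeckendorf = (X n₀ t).zeckendorf.map (· + k) := by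
  induction k with
  | zero => simp
  | succ k ih =>
    have h1 : Nat.fib (n₀ + 1) ≤ Nat.fib (n₀ + k + 1) := Nat.fib_mono (by omega)
    rw [← add_assoc, X_step (by omega), ih, List.map_map]
    congr 1

/-- The digit sum of `F_{2n+3} + F_{2n+1} + 2 t L_{n+1} + c`. -/
theorem comb {n₀ k t c : ℕ} (h1 : 8 * t ≤ Nat.fib (n₀ + 1)) (h2 : c < Nat.fib (k + 1))
    (h3 : X (n₀ + k) t < Nat.fib (2 * (n₀ + k))) (h4 : 1 ≤ n₀ + k) :
    sZ (Nat.fib (2 * (n₀ + k) + 3) + Nat.fib (2 * (n₀ + k) + 1) + X (n₀ + k) t + c) =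
      2 + sZ (X n₀ t) + sZ c := by
  have hx := X_shift h1 k
  obtain ⟨l, hl⟩ : ∃ l, l = (2 * (n₀ + k) + 3) :: (2 * (n₀ + k) + 1) ::
    ((X (n₀ + k) t).zeckendorf ++ c.zeckendorf) := ⟨_, rfl⟩
  have hsum : (l.map Nat.fib).sum =
      Nat.fib (2 * (n₀ + k) + 3) + Nat.fib (2 * (n₀ + k) + 1) + X (n₀ + k) t + c := by
    rw [hl]
    simp only [List.map_cons, List.map_append, List.sum_cons, List.sum_append,
      Nat.sum_zeckendorf_fib]
    ring
  have hX : ∀ e ∈ (X (n₀ + k) t).zeckendorf, k + 2 ≤ e ∧ e + 1 ≤ 2 * (n₀ + k) := by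
    intro e he
    have h5 := lt_of_mem he h3
    rw [hx, List.mem_map] at he
    obtain ⟨a, ha, rfl⟩ := he
    have := two_le ha
    omega
  have hc : ∀ e ∈ c.zeckendorf, 2 ≤ e ∧ e ≤ k := by
    intro e he
    have h5 := lt_of_mem he h2
    exact ⟨two_le he, by omega⟩
  have hrep : l.IsZeckendorfRep := by
    rw [rep_iff, hl]
    have r1 := (rep_iff _).1 (Nat.isZeckendorfRep_zeckendorf (X (n₀ + k) t))
    have r2 := (rep_iff _).1 (Nat.isZeckendorfRep_zeckendorf c)
    constructor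
    · rw [List.pairwise_cons, List.pairwise_cons, List.pairwise_append]
      refine ⟨fun a ha => ?_, fun a ha => ?_, r1.1, r2.1, fun a ha b hb => ?_⟩
      · rw [List.mem_cons, List.mem_append] at ha
        rcases ha with rfl | ha | ha
        · omega
        · have := hX a ha
          omega
        · have := hc a ha
          omega
      · rw [List.mem_append] at ha
        rcases ha with ha | ha
        · have := hX a ha
          omega
        · have := hc a ha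
          omega
      · have := hX a ha
        have := hc b hb
        omega
    · intro a ha
      rw [List.mem_cons, List.mem_cons, List.mem_append] at ha
      rcases ha with rfl | rfl | ha | ha
      · omega
      · omega
      · exact r1.2 a ha
      · exact r2.2 a ha
  rw [← hsum, sZ, Nat.zeckendorf_sum_fib hrep, hl]
  simp only [List.length_cons, List.length_append]
  rw [hx, List.length_map]
  unfold sZ
  ring

/-! ### Squares of Lucas numbers -/

theorem cassini (n : ℕ) : (Nat.fib n : ℤ) * Nat.fib (n + 2) - Nat.fib (n + 1) ^ 2 =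
    (-1) ^ (n + 1) := by
  induction n with
  | zero => simp
  | succ n ih =>
    have h1 : (Nat.fib (n + 1 + 2) : ℤ) = Nat.fib (n + 1) + Nat.fib (n + 2) := by
      rw [Nat.fib_add_two]; push_cast; ring
    have h2 : (Nat.fib (n + 2) : ℤ) = Nat.fib n + Nat.fib (n + 1) := by
      rw [Nat.fib_add_two]; push_cast; ring
    have h3 : (-1 : ℤ) ^ (n + 1 + 1) = -(-1) ^ (n + 1) := by ring
    rw [h1, h3, ← ih, show n + 1 + 1 = n + 2 by ring, h2]
    ring

theorem lu_sq (n : ℕ) : (lu n : ℤ) ^ 2 = Nat.fib (2 * n + 3) + Nat.fib (2 * n + 1) +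
    2 * (-1) ^ (n + 1) := by
  have h1 : (Nat.fib (2 * n + 1) : ℤ) = Nat.fib (n + 1) ^ 2 + Nat.fib n ^ 2 := by
    exact_mod_cast Nat.fib_two_mul_add_one n
  have h2 : (Nat.fib (2 * n + 3) : ℤ) = Nat.fib (n + 2) ^ 2 + Nat.fib (n + 1) ^ 2 := by
    have := Nat.fib_two_mul_add_one (n + 1)
    rw [show 2 * (n + 1) + 1 = 2 * n + 3 by ring] at this
    exact_mod_cast this
  rw [h1, h2, ← cassini n]
  unfold lu
  push_cast
  ring

theorem sq_odd {n : ℕ} (hn : Odd n) (t : ℕ) : (lu n + t) ^ 2 =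
    Nat.fib (2 * n + 3) + Nat.fib (2 * n + 1) + X n t + (t ^ 2 + 2) := by
  have h := lu_sq n
  rw [Even.neg_one_pow (by simpa [parity_simps] using hn)] at h
  have : ((lu n : ℤ) + t) ^ 2 =
      Nat.fib (2 * n + 3) + Nat.fib (2 * n + 1) + X n t + (t ^ 2 + 2) := by
    unfold X
    push_cast
    linear_combination h
  exact_mod_cast this

theorem sq_even {n : ℕ} (hn : Even n) : (lu n + 2) ^ 2 =
    Nat.fib (2 * n + 3) + Nat.fib (2 * n + 1) + X n 2 + 2 := by
  have h := lu_sq n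
  rw [Odd.neg_one_pow (by simpa [parity_simps] using hn)] at h
  have : ((lu n : ℤ) + 2) ^ 2 =
      Nat.fib (2 * n + 3) + Nat.fib (2 * n + 1) + X n 2 + 2 := by
    unfold X
    push_cast
    linear_combination h
  exact_mod_cast this

theorem X_lt {n t : ℕ} (h : 6 * t < Nat.fib n) : X n t < Nat.fib (2 * n) := by
  have h1 : Nat.fib n ≤ Nat.fib (n + 1) := Nat.fib_le_fib_succ
  have h2 : Nat.fib n * Nat.fib (n + 1) ≤ Nat.fib (2 * n) := by
    rw [Nat.fib_two_mul]
    exact Nat.mul_le_mul_left _ (by omega)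
  have h3 : lu n ≤ 3 * Nat.fib (n + 1) := by
    unfold lu
    rw [Nat.fib_add_two]
    omega
  have h4 : X n t ≤ (6 * t) * Nat.fib (n + 1) := by
    unfold X
    calc 2 * t * lu n ≤ 2 * t * (3 * Nat.fib (n + 1)) := Nat.mul_le_mul_left _ h3
      _ = (6 * t) * Nat.fib (n + 1) := by ring
  have h5 : (6 * t) * Nat.fib (n + 1) < Nat.fib n * Nat.fib (n + 1) :=
    Nat.mul_lt_mul_of_pos_right h (Nat.fib_pos.2 (by omega))
  omega

/-- The digit sums near Lucas numbers. -/
theorem value {r n t c : ℕ} (hr : 1 ≤ r) (ht : 8 * t ≤ Nat.fib (r + 1)) (h8 : 8 ≤ Nat.fib (r + 1))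
    (hc : c ≤ t ^ 2 + 2) (hn : 3 * r ≤ n) :
    sZ (Nat.fib (2 * n + 3) + Nat.fib (2 * n + 1) + X n t + c) = 2 + sZ (X r t) + sZ c := by
  obtain ⟨k, rfl⟩ : ∃ k, n = r + k := ⟨n - r, by omega⟩
  have h1 : Nat.fib (2 * r + 1) ≤ Nat.fib (k + 1) := Nat.fib_mono (by omega)
  have h2 : Nat.fib (r + 1) ≤ Nat.fib (r + k) := Nat.fib_mono (by omega)
  have h3 := Nat.fib_two_mul_add_one r
  refine comb ht ?_ (X_lt (by omega)) (by omega)
  have h4 : 64 * t ^ 2 ≤ Nat.fib (r + 1) ^ 2 := by nlinarith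
  nlinarith

/-! ### The maximum order complexity -/

/-- The sequence for the squares. -/
theorem seq_sq (n : ℕ) : seq (Polynomial.X ^ 2) n = (sZ (n ^ 2) : ℕ) := by
  unfold seq
  rw [Polynomial.eval_pow, Polynomial.eval_X]
  congr 2

theorem sZ_of_rep {l : List ℕ} (h : l.IsZeckendorfRep) {n : ℕ} (hn : (l.map Nat.fib).sum = n) :
    sZ n = l.length := by
  rw [← hn, sZ, Nat.zeckendorf_sum_fib h]

theorem sZ_small : sZ 0 = 0 ∧ sZ 1 = 1 ∧ sZ 2 = 1 ∧ sZ 6 = 2 := by
  refine ⟨by simp [sZ], ?_, ?_, ?_⟩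
  · exact sZ_of_rep (l := [2]) ((rep_iff _).2 (by simp)) (by decide)
  · exact sZ_of_rep (l := [3]) ((rep_iff _).2 (by simp)) (by decide)
  · exact sZ_of_rep (l := [5, 2]) ((rep_iff _).2 (by simp)) (by decide)

theorem not_generates {r M : ℕ} (hr : Odd r) (h16 : 16 ≤ Nat.fib (r + 1))
    (hM : M ≤ Nat.fib (r + 1) / 8 + 1) :
    ¬ Generates (seq (Polynomial.X ^ 2)) (lu (3 * r + 3) + 3) M := by
  rintro ⟨f, hf⟩
  have hr1 : 1 ≤ r := hr.pos
  have hmono : lu (3 * r) ≤ lu (3 * r + 2) := by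
    rw [lu_add]
    omega
  have ho1 : Odd (3 * r) := by
    obtain ⟨a, rfl⟩ := hr
    exact ⟨3 * a + 1, by ring⟩
  have ho2 : Odd (3 * r + 2) := by
    obtain ⟨a, rfl⟩ := hr
    exact ⟨3 * a + 2, by ring⟩
  have he3 : Even (3 * r + 3) := by
    obtain ⟨a, rfl⟩ := hr
    exact ⟨3 * a + 3, by ring⟩
  -- the two windows agree
  have hw : ∀ t < M, seq (Polynomial.X ^ 2) (lu (3 * r) + t) =
      seq (Polynomial.X ^ 2) (lu (3 * r + 2) + t) := by
    intro t ht
    have h8 : 8 * t ≤ Nat.fib (r + 1) := by omega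
    rw [seq_sq, seq_sq, sq_odd ho1, sq_odd ho2, value hr1 h8 (by omega) le_rfl (by omega),
      value hr1 h8 (by omega) le_rfl (by omega)]
  have hall : ∀ k, lu (3 * r + 2) + k < lu (3 * r + 3) + 3 →
      seq (Polynomial.X ^ 2) (lu (3 * r) + k) = seq (Polynomial.X ^ 2) (lu (3 * r + 2) + k) := by
    intro k
    induction k using Nat.strong_induction_on with
    | _ k ih =>
      intro hk
      rcases Nat.lt_or_ge k M with h | h
      · exact hw k h
      · obtain ⟨a, rfl⟩ : ∃ a, k = a + M := ⟨k - M, by omega⟩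
        rw [← add_assoc, ← add_assoc, hf (lu (3 * r) + a) (by omega),
          hf (lu (3 * r + 2) + a) (by omega)]
        congr 1
        funext j
        have := ih (a + j) (by omega) (by omega)
        rw [← add_assoc, ← add_assoc] at this
        exact this
  have e3 : lu (3 * r + 3) = lu (3 * r + 1) + lu (3 * r + 2) := lu_add (3 * r + 1)
  have e2 : lu (3 * r + 2) = lu (3 * r) + lu (3 * r + 1) := lu_add (3 * r)
  have h := hall (lu (3 * r + 1) + 2) (by omega)
  rw [show lu (3 * r) + (lu (3 * r + 1) + 2) = lu (3 * r + 2) + 2 by omega,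
    show lu (3 * r + 2) + (lu (3 * r + 1) + 2) = lu (3 * r + 3) + 2 by omega,
    seq_sq, seq_sq, sq_odd ho2, sq_even he3,
    value hr1 (by omega) (by omega) le_rfl (by omega),
    value (c := 2) hr1 (by omega) (by omega) (by norm_num) (by omega)] at h
  obtain ⟨s0, s1, s2, s6⟩ := sZ_small
  rw [show 2 ^ 2 + 2 = 6 by norm_num, s2, s6] at h
  push_cast at h
  have h' : (2 : ZMod 2) = 1 := by linear_combination h
  exact absurd h' (by decide)

theorem moc_lower {r : ℕ} (hr : Odd r) (h16 : 16 ≤ Nat.fib (r + 1)) :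
    Nat.fib (r + 1) / 8 + 2 ≤ moc (seq (Polynomial.X ^ 2)) (lu (3 * r + 3) + 3) := by
  unfold moc
  rw [if_neg]
  · refine le_csInf ⟨lu (3 * r + 3) + 3, by omega, fun _ => 0, fun i hi => by omega⟩ ?_
    rintro M ⟨-, hM⟩
    by_contra hcon
    exact not_generates hr h16 (by omega) hM
  · intro h
    have h1 := h 1 (by omega)
    rw [seq_sq, seq_sq] at h1
    obtain ⟨s0, s1, s2, s6⟩ := sZ_small
    rw [one_pow, s1, show 0 ^ 2 = 0 by norm_num, s0] at h1
    exact absurd h1 (by decide)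

theorem fib_add_le (a b : ℕ) : Nat.fib (a + 1 + (b + 1)) ≤
    3 * (Nat.fib (a + 1) * Nat.fib (b + 1)) := by
  have h1 := Nat.fib_add (a + 1) b
  have h2 : Nat.fib b ≤ Nat.fib (b + 1) := Nat.fib_le_fib_succ
  have h3 : Nat.fib a ≤ Nat.fib (a + 1) := Nat.fib_le_fib_succ
  have h4 : Nat.fib (a + 1 + 1) = Nat.fib a + Nat.fib (a + 1) := Nat.fib_add_two
  rw [show a + 1 + (b + 1) = a + 1 + b + 1 by ring, h1, h4]
  nlinarith

theorem N_bound {r : ℕ} : lu (3 * r + 3) + 3 ≤ 64 * Nat.fib (r + 1) ^ 3 := by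
  have h1 := fib_add_le r (2 * r + 3)
  have h2 := fib_add_le r (r + 2)
  rw [show r + 1 + (2 * r + 3 + 1) = 3 * r + 5 by ring] at h1
  rw [show r + 1 + (r + 2 + 1) = 2 * r + 3 + 1 by ring] at h2
  have h3 : Nat.fib (r + 2 + 1) ≤ 3 * Nat.fib (r + 1) := by
    have a1 : Nat.fib (r + 3) = Nat.fib (r + 1) + Nat.fib (r + 2) := Nat.fib_add_two
    have a2 : Nat.fib (r + 2) = Nat.fib r + Nat.fib (r + 1) := Nat.fib_add_two
    have a3 : Nat.fib r ≤ Nat.fib (r + 1) := Nat.fib_le_fib_succ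
    rw [show r + 2 + 1 = r + 3 by ring]
    omega
  have h4 : Nat.fib (3 * r + 3) ≤ Nat.fib (3 * r + 5) := Nat.fib_mono (by omega)
  have h5 : 1 ≤ Nat.fib (r + 1) := Nat.fib_pos.2 (by omega)
  have h6 : Nat.fib (3 * r + 5) ≤ 27 * Nat.fib (r + 1) ^ 3 := by
    calc Nat.fib (3 * r + 5) ≤ 3 * (Nat.fib (r + 1) * Nat.fib (2 * r + 3 + 1)) := h1
      _ ≤ 3 * (Nat.fib (r + 1) * (3 * (Nat.fib (r + 1) * (3 * Nat.fib (r + 1))))) := by
          gcongr
          exact h2.trans (by gcongr)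
      _ = 27 * Nat.fib (r + 1) ^ 3 := by ring
  have h7 : 1 ≤ Nat.fib (r + 1) ^ 3 := Nat.one_le_pow _ _ h5
  unfold lu
  rw [show 3 * r + 3 + 2 = 3 * r + 5 by ring]
  omega

/-- For infinitely many `N` the maximum order complexity is at least `N ^ (1/3) / 32`. -/
theorem cube_root : ∃ᶠ N : ℕ in Filter.atTop,
    (N : ℝ) ^ ((1 : ℝ) / 3) / 32 ≤ moc (seq (Polynomial.X ^ 2)) N := by
  rw [Filter.frequently_atTop]
  intro a
  obtain ⟨r, hra⟩ : ∃ r, r = 2 * a + 7 := ⟨_, rfl⟩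
  have hr : Odd r := ⟨a + 3, by omega⟩
  have h5 : r ≤ Nat.fib (r + 1) := by
    have := Nat.le_fib_add_one (r + 1)
    omega
  have h16 : 16 ≤ Nat.fib (r + 1) := by
    calc 16 ≤ Nat.fib 8 := by decide
      _ ≤ _ := Nat.fib_mono (by omega)
  refine ⟨lu (3 * r + 3) + 3, ?_, ?_⟩
  · have h6 : Nat.fib (r + 1) ≤ Nat.fib (3 * r + 3) := Nat.fib_mono (by omega)
    unfold lu
    omega
  · have h1 := moc_lower hr h16
    have h2 : (Nat.fib (r + 1) : ℝ) / 8 ≤ moc (seq (Polynomial.X ^ 2)) (lu (3 * r + 3) + 3) := by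
      have h3 : Nat.fib (r + 1) ≤ 8 * moc (seq (Polynomial.X ^ 2)) (lu (3 * r + 3) + 3) := by omega
      have h4 : (Nat.fib (r + 1) : ℝ) ≤ 8 * moc (seq (Polynomial.X ^ 2)) (lu (3 * r + 3) + 3) := by
        exact_mod_cast h3
      linarith
    have h3 : ((lu (3 * r + 3) + 3 : ℕ) : ℝ) ≤ (4 * (Nat.fib (r + 1) : ℝ)) ^ 3 := by
      have : ((lu (3 * r + 3) + 3 : ℕ) : ℝ) ≤ ((64 * Nat.fib (r + 1) ^ 3 : ℕ) : ℝ) := by
        exact_mod_cast N_bound (r := r)
      push_cast at this ⊢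
      linarith
    have h4 : ((lu (3 * r + 3) + 3 : ℕ) : ℝ) ^ ((1 : ℝ) / 3) ≤ 4 * (Nat.fib (r + 1) : ℝ) := by
      calc ((lu (3 * r + 3) + 3 : ℕ) : ℝ) ^ ((1 : ℝ) / 3)
          ≤ ((4 * (Nat.fib (r + 1) : ℝ)) ^ 3) ^ ((1 : ℝ) / 3) :=
            Real.rpow_le_rpow (by positivity) h3 (by norm_num)
        _ = 4 * (Nat.fib (r + 1) : ℝ) := by
          rw [← Real.rpow_natCast, ← Real.rpow_mul (by positivity)]
          norm_num
    linarith

/-- The bound `M(N) ≤ C N ^ (1/4)` fails for every `C`. -/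
theorem unbounded (C : ℝ) : ∃ᶠ N : ℕ in Filter.atTop,
    C * (N : ℝ) ^ ((1 : ℝ) / 4) < moc (seq (Polynomial.X ^ 2)) N := by
  have h1 : ∀ᶠ N : ℕ in Filter.atTop, 32 * |C| < (N : ℝ) ^ ((1 : ℝ) / 12) :=
    ((tendsto_rpow_atTop (by norm_num)).comp tendsto_natCast_atTop_atTop).eventually_gt_atTop _
  refine (cube_root.and_eventually h1).mono ?_
  rintro N ⟨h2, h3⟩
  have h0 : (0 : ℝ) ≤ N := Nat.cast_nonneg _
  have h4 : (N : ℝ) ^ ((1 : ℝ) / 3) = (N : ℝ) ^ ((1 : ℝ) / 4) * (N : ℝ) ^ ((1 : ℝ) / 12) := by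
    rcases h0.eq_or_lt with h | h
    · rw [← h]
      rw [Real.zero_rpow (by norm_num), Real.zero_rpow (by norm_num), zero_mul]
    · rw [← Real.rpow_add h]
      norm_num
  have hpos : 0 < (N : ℝ) := by
    rcases h0.eq_or_lt with h | h
    · exfalso
      rw [← h, Real.zero_rpow (by norm_num)] at h3
      have := abs_nonneg C
      linarith
    · exact h
  have h5 : 0 < (N : ℝ) ^ ((1 : ℝ) / 4) := Real.rpow_pos_of_pos hpos _
  refine lt_of_lt_of_le ?_ h2
  rw [h4]
  have h6 := le_abs_self C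
  nlinarith

/-- The statement of the question is false: it fails for `P = X ^ 2`. Moreover, for `P = X ^ 2`, the
maximum order complexity is at least `N ^ (1/3) / 32` for infinitely many `N`. -/
theorem result :
    (¬ ∀ P : Polynomial ℤ, P.Monic → 2 ≤ P.natDegree → (∀ n : ℕ, 0 ≤ P.eval (n : ℤ)) →
      ∃ c C : ℝ, 0 < c ∧ 0 < C ∧ ∀ᶠ N : ℕ in Filter.atTop,
        c * (N : ℝ) ^ ((1 : ℝ) / (2 * P.natDegree)) ≤ moc (seq P) N ∧
        (moc (seq P) N : ℝ) ≤ C * (N : ℝ) ^ ((1 : ℝ) / (2 * P.natDegree))) ∧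
    ∃ᶠ N : ℕ in Filter.atTop,
      (N : ℝ) ^ ((1 : ℝ) / 3) / 32 ≤ moc (seq (Polynomial.X ^ 2)) N := by
  refine ⟨fun h => ?_, cube_root⟩
  obtain ⟨c, C, hc, hC, h1⟩ := h (Polynomial.X ^ 2) (Polynomial.monic_X_pow 2)
    (by simp) (fun n => by simp)
  rw [Polynomial.natDegree_X_pow] at h1
  obtain ⟨N, h2, h3⟩ := ((unbounded C).and_eventually h1).exists
  norm_num at h2 h3
  linarith [h3.2]

end Pool.Agent.Results.MP_d0186b_co.CubeRoot
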